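import Pool.Agent.Q217.MTL.ChainAmalg

set_option autoImplicit false

/-!
# Uncountably many axiomatic extensions of MTL have deductive interpolation

For a set `P` of natural numbers let `K_P` be the class of the MTL-chains
`0 < … < z_i < … < z* < … < t_i < … < c < 1` (`z_i` and `t_i` decreasing in `i ∈ I`), where `I` is a
linear order with successor `S` and predecessor and a subset `Q` such that no two consecutive elements of
`Q` are at distance `n + 1` with `n ∉ P`. Products: `c c = z*`, `c t_i = z_i`,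
`t_i t_j = z_{S i}` if `b(i) ≤ j ≤ i` and `t_i t_j = z_i` if `j < b(i)`, where `b(i)` is the second
predecessor of `i` if `i ∈ Q` and the predecessor otherwise; all other products of nonunits are `0`.
The class is closed under ultraproducts and has amalgamation, so its logic has the DIP; different `P`
give different logics.
-/

namespace Pool.Agent.Results.MP_6be952_lc.UncountablyManyDIP

open Pool.Agent.Q217.FL Pool.Agent.Q217.MTL

/-- equivalence -/
def iff' (φ ψ : Fml) : Fml := .and (.imp φ ψ) (.imp ψ φ)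

/-- negation -/
def neg (φ : Fml) : Fml := .imp φ .f

/-- the variable -/
def X : Fml := .var 0

/-- successor -/
def sf (u : Fml) : Fml := .imp (neg (neg X)) (.mul u u)

/-- band -/
def bf (u : Fml) : Fml := .imp u (.mul u u)

/-- iterated successor of the variable -/
def it : ℕ → Fml
  | 0 => X
  | n + 1 => sf (it n)

/-- not in `Q` -/
def nQ (u : Fml) : Fml := iff' (sf (bf u)) u

/-- The premises. -/
def prem (n : ℕ) : Set Fml := {φ | ∃ k < n, φ = nQ (it (k + 1))}

/-- The conclusion. -/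
def concl (n : ℕ) : Fml :=
  orL [nQ (it 0), nQ (it (n + 1)), iff' X (neg (neg X)), neg (.mul (neg (neg X)) (neg (neg X)))]

section eval

variable {I : Type} [Ix I] (v : ℕ → Ch I)

theorem evalC_iff (φ ψ : Fml) :
    evalC v (iff' φ ψ) = Ch.one ↔ evalC v φ = evalC v ψ := by
  rw [iff', evalC, Ch.inf_eq_one, evalC, evalC, Ch.res_eq_one, Ch.res_eq_one]
  exact ⟨fun h => Ch.le_antisymm' h.1 h.2, fun h => by
    rw [h]
    exact ⟨Ch.le_refl' _, Ch.le_refl' _⟩⟩

theorem nn_eq (h1 : evalC v (iff' X (neg (neg X))) ≠ Ch.one)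
    (h2 : evalC v (neg (.mul (neg (neg X)) (neg (neg X)))) ≠ Ch.one) :
    ∃ i, v 0 = Ch.t i := by
  rw [ne_eq, evalC_iff, neg, neg, evalC, evalC, X, evalC] at h1
  rw [ne_eq, neg, neg, neg, evalC, evalC, evalC, evalC, Ch.res_eq_one, X, evalC] at h2
  revert h1 h2
  generalize v 0 = u
  intro h1 h2
  cases u <;> simp_all [Ch.le, Ch.rank, Ch.res, Ch.mul, evalC]

variable {i : I} (hi : v 0 = Ch.t i)
include hi

theorem nnX : evalC v (neg (neg X)) = Ch.c := by
  rw [neg, neg, evalC, evalC, X, evalC, hi]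
  rfl

theorem eval_sf {u : Fml} {j : I} (hu : evalC v u = Ch.t j) :
    evalC v (sf u) = Ch.t (Ix.S j) := by
  rw [sf, evalC, nnX v hi, evalC, hu]
  simp only [Ch.mul, Ch.res]
  rw [Ix.phi_of_le le_rfl, if_pos (Ix.b_lt j).le]

theorem eval_bf {u : Fml} {j : I} (hu : evalC v u = Ch.t j) :
    evalC v (bf u) = Ch.t (Ix.b j) := by
  rw [bf, evalC, evalC, hu]
  simp only [Ch.mul, Ch.res]
  rw [Ix.phi_of_le le_rfl, if_pos (Ix.b_lt j).le, if_neg (not_le.2 (Ix.lt_S j))]
  simp

theorem eval_nQ {u : Fml} {j : I} (hu : evalC v u = Ch.t j) :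
    evalC v (nQ u) = Ch.one ↔ ¬ Ix.Q j := by
  rw [nQ, evalC_iff, eval_sf v hi (eval_bf v hi hu), hu, Ch.t.injEq, Ix.S_b]

theorem eval_it (n : ℕ) : evalC v (it n) = Ch.t (Ix.S^[n] i) := by
  induction n with
  | zero => exact hi
  | succ n ih =>
    rw [it, eval_sf v hi ih, Function.iterate_succ_apply']

end eval

theorem rule_valid {P : Set ℕ} {n : ℕ} (hn : n ∉ P) : ConsP P (prem n) (concl n) := by
  rintro ⟨I, ixI, neI, omI, v⟩ hM
  change ∀ γ ∈ prem n, evalC v γ = Ch.one at hM
  change evalC v (concl n) = Ch.one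
  by_contra hc
  rw [concl, evalC_orL] at hc
  push Not at hc
  simp only [List.mem_cons, List.not_mem_nil, or_false, forall_eq_or_imp, forall_eq] at hc
  obtain ⟨h1, h2, h3, h4⟩ := hc
  obtain ⟨i, hi⟩ := nn_eq v h3 h4
  have hit := eval_it v hi
  rw [ne_eq, eval_nQ v hi (hit 0), not_not] at h1
  rw [ne_eq, eval_nQ v hi (hit (n + 1)), not_not] at h2
  refine omI n hn ⟨i, h1, fun k hk => ?_, h2⟩
  exact (eval_nQ v hi (hit (k + 1))).1 (hM _ ⟨k, hk, rfl⟩)

/-- The integers with the multiples of `n + 1`. -/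
@[reducible]
def zIx (n : ℕ) : Ix ℤ :=
  { (inferInstance : LinearOrder ℤ) with
    S := fun i => i + 1
    pr := fun i => i - 1
    Q := fun i => ((n : ℤ) + 1) ∣ i
    S_pr := fun i => by ring
    pr_S := fun i => by ring
    lt_iff := fun i j => by
      constructor
      · intro h
        exact h
      · intro h
        exact h }

theorem z_iter (n k : ℕ) (i : ℤ) : (zIx n).S^[k] i = i + k := by
  induction k with
  | zero => simp
  | succ k ih =>
    rw [Function.iterate_succ_apply', ih]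
    change i + k + 1 = _
    push_cast
    ring

theorem z_omits {P : Set ℕ} {n : ℕ} (hn : n ∈ P) : @Omits P ℤ (zIx n) := by
  rintro m hm ⟨i, h1, h2, h3⟩
  rw [z_iter] at h3
  change ((n : ℤ) + 1) ∣ i at h1
  change ((n : ℤ) + 1) ∣ i + ((m + 1 : ℕ) : ℤ) at h3
  have h4 : ((n : ℤ) + 1) ∣ ((m : ℤ) + 1) := by
    have := (dvd_add_right h1).1 h3
    push_cast at this
    exact this
  have h5 : (n : ℤ) + 1 ≤ (m : ℤ) + 1 := Int.le_of_dvd (by positivity) h4
  have h6 : n ≠ m := by
    rintro rfl
    exact hm hn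
  have h7 : n < m := by omega
  have h8 := h2 n h7
  rw [z_iter] at h8
  refine h8 ?_
  change ((n : ℤ) + 1) ∣ i + ((n + 1 : ℕ) : ℤ)
  push_cast
  exact dvd_add h1 dvd_rfl

theorem rule_not_valid {P : Set ℕ} {n : ℕ} (hn : n ∈ P) : ¬ ConsP P (prem n) (concl n) := by
  intro h
  letI := zIx n
  let v : ℕ → Ch ℤ := fun _ => Ch.t 0
  have hi : v 0 = Ch.t 0 := rfl
  have h1 := h ⟨ℤ, zIx n, ⟨0⟩, z_omits hn, v⟩ (by
    rintro γ ⟨k, hk, rfl⟩
    change evalC v (nQ (it (k + 1))) = Ch.one
    rw [eval_nQ v hi (eval_it v hi (k + 1)), z_iter]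
    change ¬ ((n : ℤ) + 1) ∣ 0 + ((k + 1 : ℕ) : ℤ)
    intro h2
    have h3 := Int.le_of_dvd (by positivity) h2
    push_cast at h3
    omega)
  change evalC v (concl n) = Ch.one at h1
  rw [concl, evalC_orL] at h1
  simp only [List.mem_cons, List.not_mem_nil, or_false, exists_eq_or_imp, exists_eq_left] at h1
  rcases h1 with h1 | h1 | h1 | h1
  · rw [eval_nQ v hi (eval_it v hi 0)] at h1
    exact h1 (dvd_zero _)
  · rw [eval_nQ v hi (eval_it v hi (n + 1)), z_iter] at h1
    refine h1 ?_
    change ((n : ℤ) + 1) ∣ 0 + ((n + 1 : ℕ) : ℤ)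
    push_cast
    simp
  · rw [evalC_iff, nnX v hi] at h1
    cases h1
  · rw [neg, evalC, evalC, nnX v hi] at h1
    cases h1

/-- There are uncountably many (in fact continuum many) axiomatic extensions of MTL with the deductive
interpolation property. -/
theorem result :
    ¬ Set.Countable {R : Set Fml → Fml → Prop | MTLExtension R ∧ DIP R} ∧
    ∃ F : Set ℕ → Set Fml → Fml → Prop, Function.Injective F ∧
      ∀ A : Set ℕ, MTLExtension (F A) ∧ DIP (F A) := by
  have hF : ∃ F : Set ℕ → Set Fml → Fml → Prop, Function.Injective F ∧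
      ∀ A : Set ℕ, MTLExtension (F A) ∧ DIP (F A) := by
    refine ⟨ConsP, fun A B hAB => ?_, fun A => ⟨consP_ext A, consP_DIP A⟩⟩
    ext n
    constructor
    · intro hn
      by_contra hc
      refine rule_not_valid hn ?_
      rw [hAB]
      exact rule_valid hc
    · intro hn
      by_contra hc
      refine rule_not_valid hn ?_
      rw [← hAB]
      exact rule_valid hc
  refine ⟨?_, hF⟩
  obtain ⟨F, hF1, hF2⟩ := hF
  intro hc
  have hc' : Countable {R : Set Fml → Fml → Prop | MTLExtension R ∧ DIP R} := hc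
  obtain ⟨f, hf⟩ := exists_injective_nat {R : Set Fml → Fml → Prop | MTLExtension R ∧ DIP R}
  refine Function.cantor_injective (fun A : Set ℕ => f ⟨F A, hF2 A⟩) fun A B hAB => ?_
  exact hF1 (congrArg Subtype.val (hf hAB))

end Pool.Agent.Results.MP_6be952_lc.UncountablyManyDIP
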